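import Mathlib

set_option autoImplicit false

/-! De Morgan formulas. -/

namespace Pool.Agent.V11201.PT

variable {n : ℕ}

/-- De Morgan formulas in `n` variables: the leaf `lit i b` is true iff `x i = b`. -/
inductive Fm (n : ℕ) : Type
  | lit (i : Fin n) (b : Bool) : Fm n
  | and (p q : Fm n) : Fm n
  | or (p q : Fm n) : Fm n

/-- the number of leaves -/
def Fm.size : Fm n → ℕ
  | .lit _ _ => 1
  | .and p q => p.size + q.size
  | .or p q => p.size + q.size

/-- the value -/
def Fm.eval (x : Fin n → Bool) : Fm n → Bool
  | .lit i b => x i == b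
  | .and p q => p.eval x && q.eval x
  | .or p q => p.eval x || q.eval x

end Pool.Agent.V11201.PT
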