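import Pool.Agent.V11201.PT.Sens

set_option autoImplicit false

/-!
Reductions from parity to problems with a gap, whose output is a list of constraints.
-/

namespace Pool.Agent.V11201.PT

open Finset
open scoped Classical

variable {N M : ℕ} {P α : Type}

theorem list_differ {e f : Fin M → P} {S : P → Prop} {a b : ℝ}
    (hyes : a ≤ (univ.filter fun j => S (e j)).card) (hno : ((univ.filter fun j => S (f j)).card : ℝ) ≤ b) :
    a - b ≤ (univ.filter fun j => e j ≠ f j).card := by
  have h : (univ.filter fun j => S (e j)).card ≤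
      (univ.filter fun j => S (f j)).card + (univ.filter fun j => e j ≠ f j).card := by
    refine (card_le_card ?_).trans (card_union_le _ _)
    intro j hj
    simp only [mem_union, mem_filter, mem_univ, true_and] at hj ⊢
    by_cases h : e j = f j
    · left; rwa [← h]
    · right; exact h
  have h' : ((univ.filter fun j => S (e j)).card : ℝ) ≤
      (univ.filter fun j => S (f j)).card + (univ.filter fun j => e j ≠ f j).card := by exact_mod_cast h
  linarith

theorem list_main {E : (Fin N → Bool) → Fin M → P} {S : α → P → Prop} {a b : ℝ}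
    (hyes : ∀ x, Even (univ.filter fun i => x i = true).card →
      ∃ s, a ≤ (univ.filter fun j => S s (E x j)).card)
    (hno : ∀ x, Odd (univ.filter fun i => x i = true).card →
      ∀ s, ((univ.filter fun j => S s (E x j)).card : ℝ) ≤ b) :
    (a - b) * N * 2 ^ N ≤ ∑ j, (TS (fun x => E x j) : ℝ) := by
  have h1 : ∀ (x : Fin N → Bool) (i : Fin N),
      a - b ≤ (univ.filter fun j => E (fl i x) j ≠ E x j).card := by
    intro x i
    have hpar := Pool.Agent.Y601.SSE.odd_flip i x
    by_cases hodd : Odd (univ.filter fun j => x j = true).card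
    · have hev : Even (univ.filter fun j => fl i x j = true).card := by
        rw [← Nat.not_odd_iff_even]
        exact fun h => (hpar.1 h) hodd
      obtain ⟨s, hs⟩ := hyes _ hev
      exact list_differ (S := S s) hs (hno x hodd s)
    · have hod : Odd (univ.filter fun j => fl i x j = true).card := hpar.2 hodd
      obtain ⟨s, hs⟩ := hyes x (Nat.not_odd_iff_even.1 hodd)
      have h2 := list_differ (S := S s) hs (hno _ hod s)
      simp only [ne_comm] at h2 ⊢
      exact h2
  have h2 : ∑ j, (TS (fun x => E x j) : ℝ) =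
      ∑ x, ∑ i, ((univ.filter fun j => E (fl i x) j ≠ E x j).card : ℝ) := by
    simp only [TS_eq]
    rw [sum_comm]
    refine sum_congr rfl fun x _ => ?_
    rw [sum_comm]
    refine sum_congr rfl fun i _ => ?_
    rw [card_filter]
    push_cast
    rfl
  rw [h2]
  refine le_trans (le_of_eq ?_) (sum_le_sum fun x _ => sum_le_sum fun i _ => h1 x i)
  simp only [sum_const, card_univ, Fintype.card_fin, Fintype.card_fun, Fintype.card_bool, nsmul_eq_mul]
  push_cast
  ring

/-- some entry of the list has large average sensitivity -/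
theorem exists_entry (hM : 0 < M) {E : (Fin N → Bool) → Fin M → P} {S : α → P → Prop} {u v : ℝ}
    (hyes : ∀ x, Even (univ.filter fun i => x i = true).card →
      ∃ s, u * M ≤ (univ.filter fun j => S s (E x j)).card)
    (hno : ∀ x, Odd (univ.filter fun i => x i = true).card →
      ∀ s, ((univ.filter fun j => S s (E x j)).card : ℝ) ≤ v * M) :
    ∃ j, (u - v) * N * 2 ^ N ≤ (TS (fun x => E x j) : ℝ) := by
  have h := list_main hyes hno
  by_contra hcon
  push Not at hcon
  have : Nonempty (Fin M) := ⟨⟨0, hM⟩⟩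
  have h2 := sum_lt_sum_of_nonempty (univ_nonempty (α := Fin M)) fun j _ => hcon j
  rw [sum_const, card_univ, Fintype.card_fin, nsmul_eq_mul] at h2
  have h3 : (u * M - v * M) * N * 2 ^ N = M * ((u - v) * N * 2 ^ N) := by ring
  rw [h3] at h
  exact absurd (h.trans_lt h2) (lt_irrefl _)

/-- functions determined by `k` functions -/
theorem det_le {β γ : Type} {k : ℕ} {e : (Fin N → Bool) → β} {g : Fin k → (Fin N → Bool) → γ}
    (h : ∀ x y, (∀ l, g l x = g l y) → e x = e y) : (TS e : ℝ) ≤ ∑ l, (TS (g l) : ℝ) := by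
  have e1 : ∑ l, (TS (g l) : ℝ) = ∑ x, ∑ i, ∑ l, ch (g l) i x := by
    simp only [TS_eq]
    rw [sum_comm]
    exact sum_congr rfl fun x _ => sum_comm
  rw [e1, TS_eq]
  refine sum_le_sum fun x _ => sum_le_sum fun i _ => ?_
  by_cases he : e (fl i x) = e x
  · have h0 : ch e i x = 0 := by unfold ch; rw [if_neg (by simpa using he)]
    rw [h0]
    exact sum_nonneg fun l _ => ch_nonneg _ _ _
  · have h0 : ch e i x = 1 := by unfold ch; rw [if_pos he]
    have h1 : ∃ l, g l (fl i x) ≠ g l x := by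
      by_contra hcon
      push Not at hcon
      exact he (h _ _ hcon)
    obtain ⟨l, hl⟩ := h1
    have h2 : ch (g l) i x = 1 := by unfold ch; rw [if_pos hl]
    rw [h0, ← h2]
    exact single_le_sum (f := fun l => ch (g l) i x) (fun l _ => ch_nonneg _ _ _) (mem_univ l)

theorem list_bound (hM : 0 < M) {E : (Fin N → Bool) → Fin M → P} {S : α → P → Prop} {u v : ℝ}
    (hyes : ∀ x, Even (univ.filter fun i => x i = true).card →
      ∃ s, u * M ≤ (univ.filter fun j => S s (E x j)).card)
    (hno : ∀ x, Odd (univ.filter fun i => x i = true).card →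
      ∀ s, ((univ.filter fun j => S s (E x j)).card : ℝ) ≤ v * M)
    {k : ℕ} {g : Fin M → Fin k → (Fin N → Bool) → Bool} {A : ℝ}
    (hg : ∀ j x y, (∀ l, g j l x = g j l y) → E x j = E y j)
    (hA : ∀ j l, (TS (g j l) : ℝ) ≤ A * 2 ^ N) : (u - v) * N ≤ k * A := by
  obtain ⟨j, hj⟩ := exists_entry hM hyes hno
  have h1 := det_le (hg j)
  have h2 : ∑ l, (TS (g j l) : ℝ) ≤ k * (A * 2 ^ N) := by
    refine (sum_le_sum fun l _ => hA j l).trans (le_of_eq ?_)
    rw [sum_const, card_univ, Fintype.card_fin, nsmul_eq_mul]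
  have h3 : (u - v) * N * 2 ^ N ≤ k * A * 2 ^ N := by
    calc (u - v) * N * 2 ^ N ≤ k * (A * 2 ^ N) := (hj.trans h1).trans h2
      _ = k * A * 2 ^ N := by ring
  exact le_of_mul_le_mul_right h3 (by positivity)

theorem list_unate (hN : 1 ≤ N) (hM : 0 < M) {E : (Fin N → Bool) → Fin M → P} {S : α → P → Prop} {u v : ℝ}
    (hyes : ∀ x, Even (univ.filter fun i => x i = true).card →
      ∃ s, u * M ≤ (univ.filter fun j => S s (E x j)).card)
    (hno : ∀ x, Odd (univ.filter fun i => x i = true).card →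
      ∀ s, ((univ.filter fun j => S s (E x j)).card : ℝ) ≤ v * M)
    {k : ℕ} {g : Fin M → Fin k → (Fin N → Bool) → Bool}
    (hg : ∀ j x y, (∀ l, g j l x = g j l y) → E x j = E y j)
    (hA : ∀ j l, Unate (g j l)) : (u - v) * Real.sqrt N ≤ k := by
  have h := list_bound hM hyes hno hg (A := Real.sqrt N) fun j l => unate_le (hA j l)
  have hN0 : (0 : ℝ) < N := by exact_mod_cast hN
  have h1 : (0 : ℝ) < Real.sqrt N := Real.sqrt_pos.2 hN0
  have h2 : (u - v) * Real.sqrt N * Real.sqrt N ≤ k * Real.sqrt N := by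
    rw [mul_assoc, Real.mul_self_sqrt hN0.le]; exact h
  exact le_of_mul_le_mul_right h2 h1

theorem list_ptf (hN : 1 ≤ N) (hM : 0 < M) {E : (Fin N → Bool) → Fin M → P} {S : α → P → Prop} {u v : ℝ}
    (hyes : ∀ x, Even (univ.filter fun i => x i = true).card →
      ∃ s, u * M ≤ (univ.filter fun j => S s (E x j)).card)
    (hno : ∀ x, Odd (univ.filter fun i => x i = true).card →
      ∀ s, ((univ.filter fun j => S s (E x j)).card : ℝ) ≤ v * M)
    {k : ℕ} (d : ℕ) {g : Fin M → Fin k → (Fin N → Bool) → Bool}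
    (hg : ∀ j x y, (∀ l, g j l x = g j l y) → E x j = E y j)
    (hA : ∀ j l, PTF d (g j l)) : (u - v) * (N : ℝ) ^ (1 / 2 ^ d : ℝ) ≤ 2 * k := by
  have h := list_bound hM hyes hno hg (A := 2 * (N : ℝ) ^ (1 - 1 / 2 ^ d : ℝ))
    fun j l => ptf_le hN d (hA j l)
  have hN0 : (0 : ℝ) < N := by exact_mod_cast hN
  have h1 : (0 : ℝ) < (N : ℝ) ^ (1 - 1 / 2 ^ d : ℝ) := Real.rpow_pos_of_pos hN0 _
  have h3 : (N : ℝ) ^ (1 / 2 ^ d : ℝ) * (N : ℝ) ^ (1 - 1 / 2 ^ d : ℝ) = N := by
    rw [← Real.rpow_add hN0]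
    norm_num
  have h2 : (u - v) * (N : ℝ) ^ (1 / 2 ^ d : ℝ) * (N : ℝ) ^ (1 - 1 / 2 ^ d : ℝ) ≤
      2 * k * (N : ℝ) ^ (1 - 1 / 2 ^ d : ℝ) := by
    rw [mul_assoc, h3]
    linarith
  exact le_of_mul_le_mul_right h2 h1

theorem list_fm (hM : 0 < M) {E : (Fin N → Bool) → Fin M → P} {S : α → P → Prop} {u v : ℝ}
    (hyes : ∀ x, Even (univ.filter fun i => x i = true).card →
      ∃ s, u * M ≤ (univ.filter fun j => S s (E x j)).card)
    (hno : ∀ x, Odd (univ.filter fun i => x i = true).card →
      ∀ s, ((univ.filter fun j => S s (E x j)).card : ℝ) ≤ v * M)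
    {k : ℕ} (s : ℕ) {F : Fin M → Fin k → Fm N}
    (hg : ∀ j x y, (∀ l, (F j l).eval x = (F j l).eval y) → E x j = E y j)
    (hA : ∀ j l, (F j l).size ≤ s) : (u - v) * N ≤ k * Real.sqrt s := by
  refine list_bound hM hyes hno (g := fun j l x => (F j l).eval x) hg (A := Real.sqrt s) fun j l => ?_
  refine (fm_le (F j l)).trans (mul_le_mul_of_nonneg_right (Real.sqrt_le_sqrt ?_) (by positivity))
  exact_mod_cast hA j l

end Pool.Agent.V11201.PT
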