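import Pool.Agent.V11201.PT.Lst

set_option autoImplicit false

/-!
Reductions from parity to problems with a gap, whose output is a list of constraints: circuits with few
NOT gates.
-/

namespace Pool.Agent.V11201.PT

open Finset
open scoped Classical

/-- The functions `g 1, …, g k` are computed by a circuit with `t` NOT gates: the input of the `i`-th NOT
gate is a monotone function `m i` of the variables and of the values `neg j`, `j < i`, of the preceding
NOT gates, and the functions are monotone functions `o l` of the variables and of the values of all NOT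
gates. (`m i` and `o l` are the functions computed by the monotone gates of the circuit; they are
arbitrary monotone functions.) -/
def FewNeg {N : ℕ} (t k : ℕ) (g : Fin k → (Fin N → Bool) → Bool) : Prop :=
  ∃ (neg : Fin t → (Fin N → Bool) → Bool) (m : Fin t → (Fin N → Bool) → (Fin t → Bool) → Bool)
    (o : Fin k → (Fin N → Bool) → (Fin t → Bool) → Bool),
    (∀ i x y u v, x ≤ y → u ≤ v → m i x u ≤ m i y v) ∧
    (∀ l x y u v, x ≤ y → u ≤ v → o l x u ≤ o l y v) ∧
    (∀ i x, neg i x = !(m i x fun j => if j < i then neg j x else false)) ∧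
    ∀ l x, g l x = o l x fun j => neg j x

/-- the number with the binary digits `b` -/
def V : (t : ℕ) → (Fin t → Bool) → ℕ
  | 0, _ => 0
  | t + 1, b => (if b 0 = true then 2 ^ t else 0) + V t (fun i => b i.succ)

theorem V_lt : ∀ (t : ℕ) (b : Fin t → Bool), V t b < 2 ^ t
  | 0, _ => by simp [V]
  | t + 1, b => by
    have h := V_lt t fun i => b i.succ
    rw [V, pow_succ]
    split_ifs <;> omega

theorem V_dec : ∀ (t : ℕ) (b b' : Fin t → Bool) (i : Fin t), (∀ j < i, b j = b' j) → b i = true →
    b' i = false → V t b' < V t b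
  | 0, _, _, i, _, _, _ => i.elim0
  | t + 1, b, b', i, hj, hi, hi' => by
    rw [V, V]
    rcases Fin.eq_zero_or_eq_succ i with rfl | ⟨i', rfl⟩
    · have h := V_lt t fun i => b' i.succ
      rw [if_pos hi, if_neg (by rw [hi']; decide)]
      omega
    · have h0 : b 0 = b' 0 := hj 0 (Fin.succ_pos i')
      have h := V_dec t (fun i => b i.succ) (fun i => b' i.succ) i'
        (fun j hj' => hj j.succ (Fin.succ_lt_succ_iff.2 hj')) hi hi'
      rw [h0]
      omega

/-- counting decreases -/
theorem count_dec {f : ℕ → ℕ} {C : ℕ → Prop} [DecidablePred C] (h1 : ∀ s, f (s + 1) ≤ f s) (h2 : ∀ s, C s → f (s + 1) < f s)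
    (N : ℕ) : ((range N).filter C).card + f N ≤ f 0 := by
  induction N with
  | zero => simp
  | succ N ih =>
    rw [range_add_one, filter_insert]
    by_cases h : C N
    · rw [if_pos h, card_insert_of_notMem (by simp)]
      have := h2 N h
      omega
    · rw [if_neg h]
      have := h1 N
      omega

variable {N : ℕ}

/-- the points of a maximal chain -/
def pt (N s : ℕ) : Fin N → Bool := fun i => decide (i.1 < s)

theorem pt_mono (s : ℕ) : pt N s ≤ pt N (s + 1) := by
  intro i
  unfold pt
  by_cases h : i.1 < s
  · have : i.1 < s + 1 := by omega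
    simp [h, this]
  · simp [h]

theorem pt_fl (s : Fin N) : pt N (s.1 + 1) = fl s (pt N s.1) := by
  funext i
  by_cases h : i = s
  · subst h
    rw [fl_self]
    simp [pt]
  · rw [fl_ne h]
    unfold pt
    have : i.1 ≠ s.1 := fun h' => h (Fin.ext h')
    congr 1
    apply propext
    omega

/-- the functions change rarely along a chain -/
theorem chain {t k : ℕ} {g : Fin k → (Fin N → Bool) → Bool} (hg : FewNeg t k g) :
    ((range N).filter fun s => ∃ l, g l (pt N s) ≠ g l (pt N (s + 1))).card + 1 ≤ (k + 1) * 2 ^ t := by
  obtain ⟨neg, m, o, hm, ho, hneg, hgo⟩ := hg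
  have key : ∀ s, (V t (fun j => neg j (pt N (s + 1))) < V t (fun j => neg j (pt N s))) ∨
      (∀ j, neg j (pt N s) = neg j (pt N (s + 1))) := by
    intro s
    by_cases h : ∀ j, neg j (pt N s) = neg j (pt N (s + 1))
    · exact Or.inr h
    · left
      push Not at h
      obtain ⟨i0, hi0⟩ := h
      have hex : ∃ n : ℕ, ∃ h : n < t, neg ⟨n, h⟩ (pt N s) ≠ neg ⟨n, h⟩ (pt N (s + 1)) := ⟨i0.1, i0.2, hi0⟩
      obtain ⟨hlt, hne⟩ := Nat.find_spec hex
      have hmin : ∀ j : Fin t, j < ⟨Nat.find hex, hlt⟩ → neg j (pt N s) = neg j (pt N (s + 1)) := by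
        intro j hj
        by_contra hcon
        exact Nat.find_min hex hj ⟨j.2, hcon⟩
      generalize (⟨Nat.find hex, hlt⟩ : Fin t) = i at hne hmin
      have hle : m i (pt N s) (fun j => if j < i then neg j (pt N s) else false) ≤
          m i (pt N (s + 1)) (fun j => if j < i then neg j (pt N (s + 1)) else false) := by
        refine hm i _ _ _ _ (pt_mono s) ?_
        intro j
        by_cases hj : j < i
        · simp only [hj, if_true, hmin j hj, le_refl]
        · simp only [hj, if_false, le_refl]
      have e1 := hneg i (pt N s)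
      have e2 := hneg i (pt N (s + 1))
      have h3 : neg i (pt N s) = true ∧ neg i (pt N (s + 1)) = false := by
        rw [e1, e2] at hne ⊢
        revert hne hle
        generalize m i (pt N s) _ = p
        generalize m i (pt N (s + 1)) _ = q
        cases p <;> cases q <;> simp
      exact V_dec t _ _ i hmin h3.1 h3.2
  obtain ⟨f, hf⟩ : ∃ f : ℕ → ℕ, f = fun s => (k + 1) * V t (fun j => neg j (pt N s)) +
      (univ.filter fun l => g l (pt N s) = false).card := ⟨_, rfl⟩
  have hk : ∀ s, (univ.filter fun l => g l (pt N s) = false).card ≤ k := fun s => by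
    refine (card_filter_le _ _).trans ?_
    rw [card_univ, Fintype.card_fin]
  have hmono : ∀ s, (∀ j, neg j (pt N s) = neg j (pt N (s + 1))) → ∀ l, g l (pt N (s + 1)) = false →
      g l (pt N s) = false := by
    intro s hs l hl
    rw [hgo] at hl ⊢
    have h1 := ho l _ _ _ _ (pt_mono (N := N) s) (le_of_eq (funext hs : (fun j => neg j (pt N s)) =
      fun j => neg j (pt N (s + 1))))
    rw [hl] at h1
    revert h1
    generalize o l (pt N s) _ = p
    cases p
    · intro _; rfl
    · intro h; exact absurd h (by decide)
  have h1 : ∀ s, f (s + 1) ≤ f s := by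
    intro s
    rw [hf]
    rcases key s with h | h
    · have := hk (s + 1)
      have h2 : (k + 1) * (V t (fun j => neg j (pt N (s + 1))) + 1) ≤ (k + 1) * V t (fun j => neg j (pt N s)) :=
        Nat.mul_le_mul_left _ h
      simp only
      rw [Nat.mul_add] at h2
      omega
    · have h2 : V t (fun j => neg j (pt N (s + 1))) = V t (fun j => neg j (pt N s)) := by
        congr 1; funext j; exact (h j).symm
      have h3 : (univ.filter fun l => g l (pt N (s + 1)) = false).card ≤
          (univ.filter fun l => g l (pt N s) = false).card := card_le_card fun l hl => by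
        simp only [mem_filter, mem_univ, true_and] at hl ⊢
        exact hmono s h l hl
      simp only [h2]
      omega
  have h2 : ∀ s, (∃ l, g l (pt N s) ≠ g l (pt N (s + 1))) → f (s + 1) < f s := by
    rintro s ⟨l, hl⟩
    rw [hf]
    rcases key s with h | h
    · have := hk (s + 1)
      have h2 : (k + 1) * (V t (fun j => neg j (pt N (s + 1))) + 1) ≤ (k + 1) * V t (fun j => neg j (pt N s)) :=
        Nat.mul_le_mul_left _ h
      simp only
      rw [Nat.mul_add] at h2
      omega
    · have h2 : V t (fun j => neg j (pt N (s + 1))) = V t (fun j => neg j (pt N s)) := by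
        congr 1; funext j; exact (h j).symm
      have h3 : (univ.filter fun l => g l (pt N (s + 1)) = false).card <
          (univ.filter fun l => g l (pt N s) = false).card := by
        refine card_lt_card ?_
        rw [ssubset_iff_of_subset fun l hl => by
          simp only [mem_filter, mem_univ, true_and] at hl ⊢
          exact hmono s h l hl]
        refine ⟨l, ?_, ?_⟩
        · simp only [mem_filter, mem_univ, true_and]
          cases h4 : g l (pt N s)
          · rfl
          · exfalso
            cases h5 : g l (pt N (s + 1))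
            · have := hmono s h l h5
              rw [h4] at this
              exact absurd this (by decide)
            · exact hl (h4.trans h5.symm)
        · simp only [mem_filter, mem_univ, true_and]
          intro h5
          exact hl ((hmono s h l h5).trans h5.symm)
      simp only [h2]
      omega
  have h3 := count_dec h1 h2 N
  have h4 : f 0 + 1 ≤ (k + 1) * 2 ^ t := by
    have h5 := hk 0
    have h6 : (k + 1) * (V t (fun j => neg j (pt N 0)) + 1) ≤ (k + 1) * 2 ^ t :=
      Nat.mul_le_mul_left _ (V_lt t _)
    rw [Nat.mul_add] at h6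
    rw [hf]
    simp only
    omega
  omega

variable {M : ℕ} {P α : Type}

theorem list_neg (hM : 0 < M) {E : (Fin N → Bool) → Fin M → P} {S : α → P → Prop} {u v : ℝ}
    (hyes : ∀ x, Even (univ.filter fun i => x i = true).card →
      ∃ s, u * M ≤ (univ.filter fun j => S s (E x j)).card)
    (hno : ∀ x, Odd (univ.filter fun i => x i = true).card →
      ∀ s, ((univ.filter fun j => S s (E x j)).card : ℝ) ≤ v * M)
    {k t : ℕ} {g : Fin M → Fin k → (Fin N → Bool) → Bool}
    (hg : ∀ j x y, (∀ l, g j l x = g j l y) → E x j = E y j)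
    (hA : ∀ j, FewNeg t k (g j)) : (u - v) * N + 1 ≤ (k + 1) * 2 ^ t := by
  have h1 : ∀ s : Fin N, (u - v) * M ≤
      (univ.filter fun j => E (pt N s.1) j ≠ E (pt N (s.1 + 1)) j).card := by
    intro s
    have hpar := Pool.Agent.Y601.SSE.odd_flip s (pt N s.1)
    rw [pt_fl s]
    have e0 : (u - v) * (M : ℝ) = u * M - v * M := by ring
    rw [e0]
    by_cases hodd : Odd (univ.filter fun j => pt N s.1 j = true).card
    · have hev : Even (univ.filter fun j => fl s (pt N s.1) j = true).card := by
        rw [← Nat.not_odd_iff_even]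
        exact fun h => (hpar.1 h) hodd
      obtain ⟨a, ha⟩ := hyes _ hev
      have h2 := list_differ (S := S a) ha (hno _ hodd a)
      simp only [ne_comm] at h2 ⊢
      exact h2
    · have hod : Odd (univ.filter fun j => fl s (pt N s.1) j = true).card := hpar.2 hodd
      obtain ⟨a, ha⟩ := hyes _ (Nat.not_odd_iff_even.1 hodd)
      exact list_differ (S := S a) ha (hno _ hod a)
  have h2 : ∀ j : Fin M, ((univ.filter fun s : Fin N => E (pt N s.1) j ≠ E (pt N (s.1 + 1)) j).card : ℝ) + 1 ≤
      (k + 1) * 2 ^ t := by
    intro j
    have h3 := chain (hA j)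
    have h4 : (univ.filter fun s : Fin N => E (pt N s.1) j ≠ E (pt N (s.1 + 1)) j).card ≤
        ((range N).filter fun s => ∃ l, g j l (pt N s) ≠ g j l (pt N (s + 1))).card := by
      refine card_le_card_of_injOn (fun s => s.1) ?_ (fun a _ b _ h => Fin.ext h)
      intro s hs
      simp only [coe_filter, mem_univ, true_and, Set.mem_ofPred_eq, mem_range] at hs ⊢
      refine ⟨s.2, ?_⟩
      by_contra hcon
      push Not at hcon
      exact hs (hg j _ _ hcon)
    have h5 : (univ.filter fun s : Fin N => E (pt N s.1) j ≠ E (pt N (s.1 + 1)) j).card + 1 ≤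
        (k + 1) * 2 ^ t := by omega
    exact_mod_cast h5
  have h3 := sum_le_sum fun s (_ : s ∈ (univ : Finset (Fin N))) => h1 s
  have h4 := sum_le_sum fun j (_ : j ∈ (univ : Finset (Fin M))) => h2 j
  have h5 : ∑ s : Fin N, ((univ.filter fun j => E (pt N s.1) j ≠ E (pt N (s.1 + 1)) j).card : ℝ) =
      ∑ j : Fin M, ((univ.filter fun s : Fin N => E (pt N s.1) j ≠ E (pt N (s.1 + 1)) j).card : ℝ) := by
    simp_rw [card_filter]
    push_cast
    exact sum_comm
  rw [sum_add_distrib] at h4
  rw [h5] at h3
  simp only [sum_const, card_univ, Fintype.card_fin, nsmul_eq_mul, mul_one] at h3 h4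
  have hM0 : (0 : ℝ) < M := by exact_mod_cast hM
  have h6 : ((u - v) * N + 1) * M ≤ (k + 1) * 2 ^ t * M := by
    calc ((u - v) * N + 1) * (M : ℝ) = N * ((u - v) * M) + M := by ring
      _ ≤ M * ((k + 1) * 2 ^ t) := by linarith
      _ = (k + 1) * 2 ^ t * M := by ring
  exact le_of_mul_le_mul_right h6 hM0

end Pool.Agent.V11201.PT
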