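import Pool.Agent.Y601.SSE.Ac0
import Pool.Agent.V11201.PT.Fm

set_option autoImplicit false

/-!
Total sensitivity of functions on the cube: unate functions, polynomial threshold functions, formulas.
-/

namespace Pool.Agent.V11201.PT

open Finset
open scoped Classical

variable {n : ℕ}

/-- flip one variable -/
abbrev fl (i : Fin n) (x : Fin n → Bool) : Fin n → Bool := Pool.Agent.Y601.SSE.flip i x

theorem fl_fl (i : Fin n) (x : Fin n → Bool) : fl i (fl i x) = x := Pool.Agent.Y601.SSE.flip_flip i x

/-- the number of pairs of an input and a variable whose flip changes the value of `g` -/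
noncomputable def TS {β : Type} (g : (Fin n → Bool) → β) : ℕ :=
  ∑ x, (univ.filter fun i => g (fl i x) ≠ g x).card

theorem sum_fl (i : Fin n) (f : (Fin n → Bool) → ℝ) : ∑ x, f (fl i x) = ∑ x, f x :=
  Fintype.sum_equiv ⟨fl i, fl i, fl_fl i, fl_fl i⟩ _ _ fun _ => rfl

theorem sum_pair (i : Fin n) (f : (Fin n → Bool) → ℝ) :
    ∑ x, f x = ∑ x, (f x + f (fl i x)) / 2 := by
  rw [← sum_div, sum_add_distrib, sum_fl]
  ring

/-- the sign of a bit -/
def sg (b : Bool) : ℝ := if b then 1 else -1

theorem sg_not (b : Bool) : sg (!b) = - sg b := by cases b <;> simp [sg]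

theorem sg_sq (b : Bool) : sg b * sg b = 1 := by cases b <;> simp [sg]

theorem fl_self (i : Fin n) (x : Fin n → Bool) : fl i x i = !(x i) := by
  unfold fl Pool.Agent.Y601.SSE.flip; simp

theorem fl_ne {i j : Fin n} (h : j ≠ i) (x : Fin n → Bool) : fl i x j = x j := by
  unfold fl Pool.Agent.Y601.SSE.flip; simp [h]

theorem fl_comm (i j : Fin n) (x : Fin n → Bool) : fl i (fl j x) = fl j (fl i x) := by
  by_cases h : i = j
  · subst h; rfl
  · funext k
    by_cases hi : k = i
    · subst hi
      rw [fl_self, fl_ne h, fl_ne h, fl_self]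
    · by_cases hj : k = j
      · subst hj
        rw [fl_ne hi, fl_self, fl_self, fl_ne hi]
      · rw [fl_ne hi, fl_ne hj, fl_ne hj, fl_ne hi]

/-- one if the flip of `i` changes `g`, otherwise zero -/
noncomputable def ch {β : Type} (g : (Fin n → Bool) → β) (i : Fin n) (x : Fin n → Bool) : ℝ :=
  if g (fl i x) ≠ g x then 1 else 0

theorem TS_eq {β : Type} (g : (Fin n → Bool) → β) : (TS g : ℝ) = ∑ x, ∑ i, ch g i x := by
  unfold TS ch
  push_cast
  exact sum_congr rfl fun x _ => by rw [card_filter]; push_cast; rfl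

theorem ch_nonneg {β : Type} (g : (Fin n → Bool) → β) (i : Fin n) (x : Fin n → Bool) : 0 ≤ ch g i x := by
  unfold ch; split_ifs <;> norm_num

/-- the pivotal inputs have the sign `g x * x i * h i x` -/
def Signed (g : (Fin n → Bool) → Bool) (h : Fin n → (Fin n → Bool) → Bool) : Prop :=
  (∀ i x, h i (fl i x) = h i x) ∧
    ∀ i x, g (fl i x) ≠ g x → sg (g x) * (sg (x i) * sg (h i x)) = 1

theorem total_eq {g : (Fin n → Bool) → Bool} {h : Fin n → (Fin n → Bool) → Bool} (H : Signed g h) :
    (TS g : ℝ) = ∑ x, sg (g x) * ∑ i, sg (x i) * sg (h i x) := by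
  rw [TS_eq, sum_comm]
  have e : ∑ x, sg (g x) * ∑ i, sg (x i) * sg (h i x) =
      ∑ i, ∑ x, sg (g x) * (sg (x i) * sg (h i x)) := by
    rw [sum_comm]
    exact sum_congr rfl fun x _ => by rw [mul_sum]
  rw [e]
  refine sum_congr rfl fun i _ => ?_
  rw [sum_pair i fun x => sg (g x) * (sg (x i) * sg (h i x))]
  refine sum_congr rfl fun x _ => ?_
  have h1 := H.1 i x
  unfold ch
  by_cases hp : g (fl i x) = g x
  · rw [if_neg (by simpa using hp)]
    rw [hp, fl_self, sg_not, h1]
    ring
  · rw [if_pos hp]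
    have h2 := H.2 i x hp
    have h3 := H.2 i (fl i x) (by rw [fl_fl]; exact Ne.symm hp)
    rw [h2, h3]
    norm_num

theorem cauchy {g : (Fin n → Bool) → Bool} {h : Fin n → (Fin n → Bool) → Bool} (H : Signed g h) :
    (TS g : ℝ) ^ 2 ≤ 2 ^ n * ∑ x : Fin n → Bool, (∑ i, sg (x i) * sg (h i x)) ^ 2 := by
  rw [total_eq H]
  refine (sum_mul_sq_le_sq_mul_sq univ (fun x : Fin n → Bool => sg (g x)) _).trans (le_of_eq ?_)
  congr 1
  have : ∀ x : Fin n → Bool, sg (g x) ^ 2 = 1 := fun x => by rw [sq, sg_sq]
  simp only [this, sum_const, card_univ, Fintype.card_fun, Fintype.card_bool, Fintype.card_fin,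
    nsmul_eq_mul, mul_one]
  push_cast
  rfl

/-- the discrete derivative of `h` with respect to `i`, as a number in `{-1, 0, 1}` -/
noncomputable def dr (h : (Fin n → Bool) → Bool) (i : Fin n) (x : Fin n → Bool) : ℝ :=
  sg (x i) * (sg (h x) - sg (h (fl i x))) / 2

theorem dr_sq (h : (Fin n → Bool) → Bool) (i : Fin n) (x : Fin n → Bool) : dr h i x ^ 2 = ch h i x := by
  unfold dr ch
  cases hx : x i <;> cases h1 : h x <;> cases h2 : h (fl i x) <;> norm_num [sg]

theorem off {h₁ h₂ : (Fin n → Bool) → Bool} {i j : Fin n} (hij : i ≠ j)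
    (H1 : ∀ x, h₁ (fl i x) = h₁ x) (H2 : ∀ x, h₂ (fl j x) = h₂ x) :
    ∑ x, (sg (x i) * sg (h₁ x)) * (sg (x j) * sg (h₂ x)) ≤
      (∑ x, ch h₁ j x + ∑ x, ch h₂ i x) / 2 := by
  have e1 : ∑ x, (sg (x i) * sg (h₁ x)) * (sg (x j) * sg (h₂ x)) =
      ∑ x, sg (h₁ x) * sg (x j) * dr h₂ i x := by
    rw [sum_pair i]
    refine sum_congr rfl fun x _ => ?_
    rw [fl_self, fl_ne hij.symm, H1, sg_not]
    unfold dr
    ring
  have e2 : ∑ x, sg (h₁ x) * sg (x j) * dr h₂ i x = ∑ x, dr h₁ j x * dr h₂ i x := by
    rw [sum_pair j]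
    refine sum_congr rfl fun x _ => ?_
    have e3 : dr h₂ i (fl j x) = dr h₂ i x := by
      unfold dr
      rw [fl_ne hij, H2, fl_comm, H2]
    rw [e3, fl_self, sg_not]
    unfold dr
    ring
  rw [e1, e2, ← sum_add_distrib, sum_div]
  refine sum_le_sum fun x _ => ?_
  rw [← dr_sq, ← dr_sq]
  nlinarith [sq_nonneg (dr h₁ j x - dr h₂ i x)]

/-- **The recursive inequality.** -/
theorem rec_ineq {g : (Fin n → Bool) → Bool} {h : Fin n → (Fin n → Bool) → Bool} (H : Signed g h) :
    (TS g : ℝ) ^ 2 ≤ 2 ^ n * (n * 2 ^ n + ∑ i, (TS (h i) : ℝ)) := by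
  refine (cauchy H).trans (mul_le_mul_of_nonneg_left ?_ (by positivity))
  have e1 : ∑ x : Fin n → Bool, (∑ i, sg (x i) * sg (h i x)) ^ 2 =
      ∑ i, ∑ j, ∑ x : Fin n → Bool, (sg (x i) * sg (h i x)) * (sg (x j) * sg (h j x)) := by
    have : ∀ x : Fin n → Bool, (∑ i, sg (x i) * sg (h i x)) ^ 2 =
        ∑ i, ∑ j, (sg (x i) * sg (h i x)) * (sg (x j) * sg (h j x)) := by
      intro x
      rw [sq, sum_mul_sum]
    simp only [this]
    rw [sum_comm]
    refine sum_congr rfl fun i _ => ?_
    rw [sum_comm]
  rw [e1]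
  have e2 : ∀ i j : Fin n, ∑ x : Fin n → Bool, (sg (x i) * sg (h i x)) * (sg (x j) * sg (h j x)) ≤
      (if i = j then (2 : ℝ) ^ n else 0) + ((∑ x, ch (h i) j x + ∑ x, ch (h j) i x) / 2) := by
    intro i j
    by_cases hij : i = j
    · subst hij
      rw [if_pos rfl]
      have : ∀ x : Fin n → Bool, (sg (x i) * sg (h i x)) * (sg (x i) * sg (h i x)) = 1 := by
        intro x
        calc (sg (x i) * sg (h i x)) * (sg (x i) * sg (h i x))
            = (sg (x i) * sg (x i)) * (sg (h i x) * sg (h i x)) := by ring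
          _ = 1 := by rw [sg_sq, sg_sq, mul_one]
      simp only [this, sum_const, card_univ, Fintype.card_fun, Fintype.card_bool, Fintype.card_fin,
        nsmul_eq_mul, mul_one]
      push_cast
      have := sum_nonneg fun x (_ : x ∈ (univ : Finset (Fin n → Bool))) => ch_nonneg (h i) i x
      linarith
    · rw [if_neg hij, zero_add]
      exact off hij (H.1 i) (H.1 j)
  refine (sum_le_sum fun i _ => sum_le_sum fun j _ => e2 i j).trans (le_of_eq ?_)
  simp only [sum_add_distrib, sum_ite_eq, mem_univ, if_true, sum_const, card_univ, Fintype.card_fin,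
    nsmul_eq_mul]
  congr 1
  have e3 : ∑ i, ∑ j, (∑ x, ch (h i) j x + ∑ x, ch (h j) i x) / 2 =
      ∑ i, ∑ j, ∑ x, ch (h i) j x := by
    have e4 : ∑ i, ∑ j, (∑ x, ch (h i) j x + ∑ x, ch (h j) i x) / 2 =
        (∑ i, ∑ j, ∑ x, ch (h i) j x + ∑ i, ∑ j, ∑ x, ch (h j) i x) / 2 := by
      simp only [← sum_add_distrib, sum_div]
    rw [e4, sum_comm (f := fun i j => ∑ x, ch (h j) i x)]
    ring
  rw [e3]
  refine sum_congr rfl fun i _ => ?_
  rw [TS_eq, sum_comm]

theorem TS_const {β : Type} (g : (Fin n → Bool) → β) (hg : ∀ x y, g x = g y) : TS g = 0 := by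
  unfold TS
  refine sum_eq_zero fun x _ => ?_
  rw [card_eq_zero, filter_eq_empty_iff]
  intro i _ h
  exact h (hg _ _)

/-! ### Unate functions -/

/-- in every variable nondecreasing or nonincreasing -/
def Unate (g : (Fin n → Bool) → Bool) : Prop :=
  ∀ i, (∀ x, g (Function.update x i false) = true → g (Function.update x i true) = true) ∨
    (∀ x, g (Function.update x i true) = true → g (Function.update x i false) = true)

theorem fl_true {i : Fin n} {x : Fin n → Bool} (h : x i = true) : fl i x = Function.update x i false := by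
  unfold fl Pool.Agent.Y601.SSE.flip; rw [h]; rfl

theorem fl_false {i : Fin n} {x : Fin n → Bool} (h : x i = false) : fl i x = Function.update x i true := by
  unfold fl Pool.Agent.Y601.SSE.flip; rw [h]; rfl

theorem up_true {i : Fin n} {x : Fin n → Bool} (h : x i = true) : Function.update x i true = x := by
  rw [← h]; exact Function.update_eq_self i x

theorem up_false {i : Fin n} {x : Fin n → Bool} (h : x i = false) : Function.update x i false = x := by
  rw [← h]; exact Function.update_eq_self i x

theorem unate_le {g : (Fin n → Bool) → Bool} (hg : Unate g) : (TS g : ℝ) ≤ Real.sqrt n * 2 ^ n := by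
  have H : Signed g (fun i _ => decide (∀ x, g (Function.update x i false) = true →
      g (Function.update x i true) = true)) := by
    refine ⟨fun _ _ => rfl, fun i x hp => ?_⟩
    show sg (g x) * (sg (x i) * sg (decide (∀ x, g (Function.update x i false) = true →
      g (Function.update x i true) = true))) = 1
    by_cases hi : ∀ x, g (Function.update x i false) = true → g (Function.update x i true) = true
    · have h1 := hi x
      rw [decide_eq_true hi]
      cases hx : x i
      · rw [fl_false hx] at hp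
        rw [up_false hx] at h1
        cases hgx : g x <;> cases hgy : g (Function.update x i true) <;> simp_all [sg]
      · rw [fl_true hx] at hp
        rw [up_true hx] at h1
        cases hgx : g x <;> cases hgy : g (Function.update x i false) <;> simp_all [sg]
    · have h1 := (hg i).resolve_left hi x
      rw [decide_eq_false hi]
      cases hx : x i
      · rw [fl_false hx] at hp
        rw [up_false hx] at h1
        cases hgx : g x <;> cases hgy : g (Function.update x i true) <;> simp_all [sg]
      · rw [fl_true hx] at hp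
        rw [up_true hx] at h1
        cases hgx : g x <;> cases hgy : g (Function.update x i false) <;> simp_all [sg]
  have h1 := rec_ineq H
  simp only [TS_const (fun _ : Fin n → Bool => _) (fun _ _ => rfl), Nat.cast_zero, sum_const_zero,
    add_zero] at h1
  have h2 : (TS g : ℝ) ^ 2 ≤ (Real.sqrt n * 2 ^ n) ^ 2 := by
    rw [mul_pow, Real.sq_sqrt (Nat.cast_nonneg n)]
    linarith
  exact le_of_sq_le_sq h2 (by positivity)

/-! ### Polynomial threshold functions -/

/-- the value of the multilinear polynomial with the coefficients `c` -/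
noncomputable def ev (c : Finset (Fin n) → ℝ) (x : Fin n → Bool) : ℝ :=
  ∑ S, if (∀ i ∈ S, x i = true) then c S else 0

/-- `g x` is true iff the multilinear polynomial with the coefficients `c` of degree at most `d` is
nonnegative at `x` -/
def PTF (d : ℕ) (g : (Fin n → Bool) → Bool) : Prop :=
  ∃ c : Finset (Fin n) → ℝ, (∀ S, d < S.card → c S = 0) ∧ ∀ x, g x = true ↔ 0 ≤ ev c x

/-- the coefficients of the derivative -/
noncomputable def dc (c : Finset (Fin n) → ℝ) (i : Fin n) (S : Finset (Fin n)) : ℝ :=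
  if i ∈ S then 0 else c (insert i S)

theorem ev_dc_fl (c : Finset (Fin n) → ℝ) (i : Fin n) (x : Fin n → Bool) :
    ev (dc c i) (fl i x) = ev (dc c i) x := by
  unfold ev
  refine sum_congr rfl fun S _ => ?_
  unfold dc
  by_cases hi : i ∈ S
  · simp [hi]
  · rw [if_neg hi]
    have : (∀ j ∈ S, fl i x j = true) ↔ ∀ j ∈ S, x j = true :=
      forall₂_congr fun j hj => by
        have hji : j ≠ i := by rintro rfl; exact hi hj
        rw [fl_ne hji]
    simp only [this]

theorem ev_sub (c : Finset (Fin n) → ℝ) (i : Fin n) (x : Fin n → Bool) :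
    ev c (Function.update x i true) - ev c (Function.update x i false) = ev (dc c i) x := by
  unfold ev
  rw [← sum_sub_distrib]
  have h1 : ∀ S : Finset (Fin n), ((if (∀ j ∈ S, Function.update x i true j = true) then c S else 0) -
      if (∀ j ∈ S, Function.update x i false j = true) then c S else 0) =
      if i ∈ S then (if (∀ j ∈ S.erase i, x j = true) then c S else 0) else 0 := by
    intro S
    by_cases hi : i ∈ S
    · rw [if_pos hi]
      have h2 : ¬ (∀ j ∈ S, Function.update x i false j = true) := by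
        intro h
        have := h i hi
        simp at this
      have h3 : (∀ j ∈ S, Function.update x i true j = true) ↔ ∀ j ∈ S.erase i, x j = true := by
        constructor
        · intro h j hj
          have h4 := h j (mem_of_mem_erase hj)
          rwa [Function.update_of_ne (ne_of_mem_erase hj)] at h4
        · intro h j hj
          by_cases hji : j = i
          · subst hji; simp
          · rw [Function.update_of_ne hji]
            exact h j (mem_erase.2 ⟨hji, hj⟩)
      rw [if_neg h2, sub_zero]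
      simp only [h3]
    · rw [if_neg hi]
      have h3 : ∀ b, (∀ j ∈ S, Function.update x i b j = true) ↔ ∀ j ∈ S, x j = true := by
        intro b
        refine forall₂_congr fun j hj => ?_
        have hji : j ≠ i := by rintro rfl; exact hi hj
        rw [Function.update_of_ne hji]
      simp only [h3, sub_self]
  rw [sum_congr rfl fun S _ => h1 S, ← sum_filter]
  have h4 : ∑ S : Finset (Fin n), (if (∀ j ∈ S, x j = true) then dc c i S else 0) =
      ∑ S ∈ univ.filter (fun S : Finset (Fin n) => i ∉ S),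
        if (∀ j ∈ S, x j = true) then c (insert i S) else 0 := by
    rw [sum_filter]
    refine sum_congr rfl fun S _ => ?_
    unfold dc
    by_cases hi : i ∈ S
    · simp [hi]
    · simp [hi]
  rw [h4]
  refine sum_nbij' (fun S => S.erase i) (fun S => insert i S) ?_ ?_ ?_ ?_ ?_
  · intro S _
    simp
  · intro S _
    simp
  · intro S hS
    rw [mem_filter] at hS
    exact insert_erase hS.2
  · intro S hS
    rw [mem_filter] at hS
    exact erase_insert hS.2
  · intro S hS
    rw [mem_filter] at hS
    rw [insert_erase hS.2]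

theorem ptf_signed {d : ℕ} {g : (Fin n → Bool) → Bool} (hg : PTF (d + 1) g) :
    ∃ h : Fin n → (Fin n → Bool) → Bool, Signed g h ∧ ∀ i, PTF d (h i) := by
  obtain ⟨c, hc, hgc⟩ := hg
  refine ⟨fun i x => decide (0 ≤ ev (dc c i) x), ⟨fun i x => ?_, fun i x hp => ?_⟩, fun i => ?_⟩
  · simp only [ev_dc_fl]
  · have h1 := ev_sub c i x
    have hgx := hgc x
    have hgy := hgc (fl i x)
    show sg (g x) * (sg (x i) * sg (decide (0 ≤ ev (dc c i) x))) = 1
    cases hx : x i
    · rw [up_false hx, ← fl_false hx] at h1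
      cases h2 : g x
      · have h3 : g (fl i x) = true := by
          cases h4 : g (fl i x)
          · exact absurd (h4.trans h2.symm) hp
          · rfl
        have h5 := hgy.1 h3
        have h6 : ev c x < 0 := by
          by_contra hcon
          rw [hgx.2 (not_lt.1 hcon)] at h2
          exact absurd h2 (by decide)
        rw [decide_eq_true (by linarith : 0 ≤ ev (dc c i) x)]
        norm_num [sg]
      · have h3 : g (fl i x) = false := by
          cases h4 : g (fl i x)
          · rfl
          · exact absurd (h4.trans h2.symm) hp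
        have h5 := hgx.1 h2
        have h6 : ev c (fl i x) < 0 := by
          by_contra hcon
          rw [hgy.2 (not_lt.1 hcon)] at h3
          exact absurd h3 (by decide)
        rw [decide_eq_false (by linarith : ¬ 0 ≤ ev (dc c i) x)]
        norm_num [sg]
    · rw [up_true hx, ← fl_true hx] at h1
      cases h2 : g x
      · have h3 : g (fl i x) = true := by
          cases h4 : g (fl i x)
          · exact absurd (h4.trans h2.symm) hp
          · rfl
        have h5 := hgy.1 h3
        have h6 : ev c x < 0 := by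
          by_contra hcon
          rw [hgx.2 (not_lt.1 hcon)] at h2
          exact absurd h2 (by decide)
        rw [decide_eq_false (by linarith : ¬ 0 ≤ ev (dc c i) x)]
        norm_num [sg]
      · have h3 : g (fl i x) = false := by
          cases h4 : g (fl i x)
          · rfl
          · exact absurd (h4.trans h2.symm) hp
        have h5 := hgx.1 h2
        have h6 : ev c (fl i x) < 0 := by
          by_contra hcon
          rw [hgy.2 (not_lt.1 hcon)] at h3
          exact absurd h3 (by decide)
        rw [decide_eq_true (by linarith : 0 ≤ ev (dc c i) x)]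
        norm_num [sg]
  · refine ⟨dc c i, fun S hS => ?_, fun x => by simp⟩
    unfold dc
    by_cases hi : i ∈ S
    · rw [if_pos hi]
    · rw [if_neg hi]
      exact hc _ (by rw [card_insert_of_notMem hi]; omega)

theorem ptf_zero {g : (Fin n → Bool) → Bool} (hg : PTF 0 g) : TS g = 0 := by
  obtain ⟨c, hc, hgc⟩ := hg
  have h1 : ∀ x, ev c x = c ∅ := by
    intro x
    unfold ev
    rw [sum_eq_single ∅]
    · simp
    · intro S _ hS
      rw [hc S (card_pos.2 (nonempty_iff_ne_empty.2 hS))]
      simp
    · intro h; exact absurd (mem_univ _) h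
  refine TS_const g fun x y => ?_
  have h2 := hgc x
  have h3 := hgc y
  rw [h1] at h2 h3
  exact Bool.eq_iff_iff.2 (h2.trans h3.symm)

/-- **The total sensitivity of polynomial threshold functions.** -/
theorem ptf_le (hn : 1 ≤ n) (d : ℕ) : ∀ {g : (Fin n → Bool) → Bool}, PTF d g →
    (TS g : ℝ) ≤ 2 * (n : ℝ) ^ (1 - 1 / 2 ^ d : ℝ) * 2 ^ n := by
  have hn1 : (1 : ℝ) ≤ n := by exact_mod_cast hn
  have hn0 : (0 : ℝ) < n := by linarith
  induction d with
  | zero =>
    intro g hg
    rw [ptf_zero hg, Nat.cast_zero]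
    positivity
  | succ d ih =>
    intro g hg
    obtain ⟨h, hs, hh⟩ := ptf_signed hg
    have h1 := rec_ineq hs
    have h2 : ∑ i, (TS (h i) : ℝ) ≤ n * (2 * (n : ℝ) ^ (1 - 1 / 2 ^ d : ℝ) * 2 ^ n) := by
      refine (sum_le_sum fun i _ => ih (hh i)).trans (le_of_eq ?_)
      rw [sum_const, card_univ, Fintype.card_fin, nsmul_eq_mul]
    have h3 : (n : ℝ) ≤ (n : ℝ) * (n : ℝ) ^ (1 - 1 / 2 ^ d : ℝ) := by
      have : (1 : ℝ) ≤ (n : ℝ) ^ (1 - 1 / 2 ^ d : ℝ) := by
        apply Real.one_le_rpow hn1
        have : (1 : ℝ) / 2 ^ d ≤ 1 := by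
          rw [div_le_one (by positivity)]
          exact one_le_pow₀ (by norm_num)
        linarith
      nlinarith
    have h4 : (n : ℝ) * (n : ℝ) ^ (1 - 1 / 2 ^ d : ℝ) = ((n : ℝ) ^ (1 - 1 / 2 ^ (d + 1) : ℝ)) ^ 2 := by
      have e1 : (n : ℝ) * (n : ℝ) ^ (1 - 1 / 2 ^ d : ℝ) = (n : ℝ) ^ (1 + (1 - 1 / 2 ^ d) : ℝ) := by
        rw [Real.rpow_add hn0, Real.rpow_one]
      rw [e1, sq, ← Real.rpow_add hn0]
      congr 1
      rw [pow_succ]
      field_simp
      ring
    have h5 : (TS g : ℝ) ^ 2 ≤ (2 * (n : ℝ) ^ (1 - 1 / 2 ^ (d + 1) : ℝ) * 2 ^ n) ^ 2 := by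
      refine h1.trans ?_
      have h6 : (2 : ℝ) ^ n * (n * 2 ^ n + ∑ i, (TS (h i) : ℝ)) ≤
          2 ^ n * (n * 2 ^ n + n * (2 * (n : ℝ) ^ (1 - 1 / 2 ^ d : ℝ) * 2 ^ n)) :=
        mul_le_mul_of_nonneg_left (by linarith) (by positivity)
      refine h6.trans ?_
      have h7 : (2 : ℝ) ^ n * (n * 2 ^ n + n * (2 * (n : ℝ) ^ (1 - 1 / 2 ^ d : ℝ) * 2 ^ n)) =
          (n + 2 * (n * (n : ℝ) ^ (1 - 1 / 2 ^ d : ℝ))) * (2 ^ n) ^ 2 := by ring
      rw [h7, mul_pow, mul_pow, ← h4]
      refine mul_le_mul_of_nonneg_right ?_ (by positivity)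
      nlinarith
    exact le_of_sq_le_sq h5 (by positivity)

/-! ### Formulas -/

/-- the number of pairs of neighbours in `A` and `B` -/
noncomputable def eb (A B : Finset (Fin n → Bool)) : ℕ :=
  ∑ i, (univ.filter fun x : Fin n → Bool => x ∈ A ∧ fl i x ∈ B).card

theorem eb_comm (A B : Finset (Fin n → Bool)) : eb A B = eb B A := by
  unfold eb
  refine sum_congr rfl fun i _ => ?_
  refine card_nbij' (fl i) (fl i) ?_ ?_ (fun x _ => fl_fl i x) (fun x _ => fl_fl i x)
  · intro x hx
    simp only [coe_filter, mem_univ, true_and, Set.mem_ofPred_eq] at hx ⊢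
    rw [fl_fl]
    exact ⟨hx.2, hx.1⟩
  · intro x hx
    simp only [coe_filter, mem_univ, true_and, Set.mem_ofPred_eq] at hx ⊢
    rw [fl_fl]
    exact ⟨hx.2, hx.1⟩

theorem eb_split (A B : Finset (Fin n → Bool)) (P : (Fin n → Bool) → Prop) [DecidablePred P] :
    eb A B = eb (A.filter P) B + eb (A.filter fun x => ¬ P x) B := by
  unfold eb
  rw [← sum_add_distrib]
  refine sum_congr rfl fun i _ => ?_
  rw [← card_union_of_disjoint]
  · congr 1
    ext x
    simp only [mem_filter, mem_univ, true_and, mem_union]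
    tauto
  · rw [disjoint_left]
    intro x h1 h2
    simp only [mem_filter, mem_univ, true_and] at h1 h2
    exact h2.1.2 h1.1.2

theorem card_split (A : Finset (Fin n → Bool)) (P : (Fin n → Bool) → Prop) [DecidablePred P] :
    (A.card : ℝ) = (A.filter P).card + (A.filter fun x => ¬ P x).card := by
  exact_mod_cast (card_filter_add_card_filter_not P).symm

theorem cs {e₁ e₂ s₁ s₂ a₁ a₂ : ℝ} (_ : 0 ≤ e₁) (_ : 0 ≤ e₂) (hs1 : 0 ≤ s₁) (hs2 : 0 ≤ s₂)
    (ha1 : 0 ≤ a₁) (ha2 : 0 ≤ a₂) (H1 : e₁ ^ 2 ≤ s₁ * a₁) (H2 : e₂ ^ 2 ≤ s₂ * a₂) :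
    (e₁ + e₂) ^ 2 ≤ (s₁ + s₂) * (a₁ + a₂) := by
  have h3 : (2 * (e₁ * e₂)) ^ 2 ≤ (s₁ * a₂ + s₂ * a₁) ^ 2 := by
    have h4 : e₁ ^ 2 * e₂ ^ 2 ≤ (s₁ * a₁) * (s₂ * a₂) :=
      mul_le_mul H1 H2 (by positivity) (by positivity)
    nlinarith [sq_nonneg (s₁ * a₂ - s₂ * a₁)]
  have h5 := le_of_sq_le_sq h3 (by positivity)
  nlinarith

theorem khr (φ : Fm n) : ∀ A B : Finset (Fin n → Bool), (∀ x ∈ A, φ.eval x = true) →
    (∀ x ∈ B, φ.eval x = false) → (eb A B : ℝ) ^ 2 ≤ φ.size * (A.card * B.card) := by
  induction φ with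
  | lit i b =>
    intro A B hA hB
    have h0 : ∀ A B : Finset (Fin n → Bool), (univ.filter fun x : Fin n → Bool => x ∈ A ∧ fl i x ∈ B).card
        ≤ A.card := fun A B => card_le_card fun x hx => by
      simp only [mem_filter, mem_univ, true_and] at hx; exact hx.1
    have h1 : eb A B = (univ.filter fun x : Fin n → Bool => x ∈ A ∧ fl i x ∈ B).card := by
      unfold eb
      refine sum_eq_single i (fun j _ hj => ?_) (fun h => absurd (mem_univ _) h)
      rw [card_eq_zero, filter_eq_empty_iff]
      rintro x _ ⟨hx1, hx2⟩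
      have e1 := hA x hx1
      have e2 := hB _ hx2
      simp only [Fm.eval] at e1 e2
      rw [fl_ne hj.symm, e1] at e2
      exact absurd e2 (by decide)
    have h2 : eb A B ≤ A.card := h1 ▸ h0 A B
    have h3 : eb A B ≤ B.card := by
      rw [h1]
      refine le_trans (le_of_eq ?_) (h0 B A)
      refine card_nbij' (fl i) (fl i) ?_ ?_ (fun x _ => fl_fl i x) (fun x _ => fl_fl i x)
      · intro x hx
        simp only [coe_filter, mem_univ, true_and, Set.mem_ofPred_eq] at hx ⊢
        rw [fl_fl]
        exact ⟨hx.2, hx.1⟩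
      · intro x hx
        simp only [coe_filter, mem_univ, true_and, Set.mem_ofPred_eq] at hx ⊢
        rw [fl_fl]
        exact ⟨hx.2, hx.1⟩
    have h2' : (eb A B : ℝ) ≤ A.card := by exact_mod_cast h2
    have h3' : (eb A B : ℝ) ≤ B.card := by exact_mod_cast h3
    simp only [Fm.size, Nat.cast_one, one_mul]
    rw [sq]
    exact mul_le_mul h2' h3' (Nat.cast_nonneg _) (Nat.cast_nonneg _)
  | or p q ihp ihq =>
    intro A B hA hB
    have hBp : ∀ x ∈ B, p.eval x = false := fun x hx => by
      have := hB x hx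
      simp only [Fm.eval, Bool.or_eq_false_iff] at this
      exact this.1
    have hBq : ∀ x ∈ B, q.eval x = false := fun x hx => by
      have := hB x hx
      simp only [Fm.eval, Bool.or_eq_false_iff] at this
      exact this.2
    have h1 := ihp (A.filter fun x => p.eval x = true) B (fun x hx => (mem_filter.1 hx).2) hBp
    have h2 := ihq (A.filter fun x => ¬ p.eval x = true) B (fun x hx => by
      rw [mem_filter] at hx
      have h3 := hA x hx.1
      simp only [Fm.eval, Bool.or_eq_true] at h3
      exact h3.resolve_left hx.2) hBq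
    rw [eb_split A B fun x => p.eval x = true, card_split A fun x => p.eval x = true]
    simp only [Fm.size]
    push_cast
    rw [add_mul (_ : ℝ) _ (B.card : ℝ)]
    exact cs (Nat.cast_nonneg _) (Nat.cast_nonneg _) (Nat.cast_nonneg _) (Nat.cast_nonneg _)
      (by positivity) (by positivity) h1 h2
  | and p q ihp ihq =>
    intro A B hA hB
    have hAp : ∀ x ∈ A, p.eval x = true := fun x hx => by
      have := hA x hx
      simp only [Fm.eval, Bool.and_eq_true] at this
      exact this.1
    have hAq : ∀ x ∈ A, q.eval x = true := fun x hx => by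
      have := hA x hx
      simp only [Fm.eval, Bool.and_eq_true] at this
      exact this.2
    have h1 := ihp A (B.filter fun x => p.eval x = false) hAp (fun x hx => (mem_filter.1 hx).2)
    have h2 := ihq A (B.filter fun x => ¬ p.eval x = false) hAq (fun x hx => by
      rw [mem_filter] at hx
      have h3 := hB x hx.1
      simp only [Fm.eval, Bool.and_eq_false_iff] at h3
      exact h3.resolve_left hx.2)
    rw [eb_comm] at h1 h2
    rw [eb_comm, eb_split B A fun x => p.eval x = false, card_split B fun x => p.eval x = false]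
    simp only [Fm.size]
    push_cast
    rw [mul_add (A.card : ℝ)]
    exact cs (Nat.cast_nonneg _) (Nat.cast_nonneg _) (Nat.cast_nonneg _) (Nat.cast_nonneg _)
      (by positivity) (by positivity) h1 h2

theorem TS_eb (g : (Fin n → Bool) → Bool) :
    TS g = 2 * eb (univ.filter fun x => g x = true) (univ.filter fun x => ¬ g x = true) := by
  have h1 : TS g = eb (univ.filter fun x => g x = true) (univ.filter fun x => ¬ g x = true) +
      eb (univ.filter fun x => ¬ g x = true) (univ.filter fun x => g x = true) := by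
    unfold TS eb
    simp_rw [card_filter]
    rw [sum_comm, ← sum_add_distrib]
    refine sum_congr rfl fun i _ => ?_
    rw [← sum_add_distrib]
    refine sum_congr rfl fun x _ => ?_
    cases h2 : g x <;> cases h3 : g (fl i x) <;> simp [h2, h3]
  rw [h1, eb_comm (univ.filter fun x => ¬ g x = true)]
  ring

/-- **The total sensitivity of formulas** (Khrapchenko). -/
theorem fm_le (φ : Fm n) : (TS (fun x => φ.eval x) : ℝ) ≤ Real.sqrt φ.size * 2 ^ n := by
  obtain ⟨A, hA⟩ : ∃ A : Finset (Fin n → Bool), A = univ.filter fun x => φ.eval x = true := ⟨_, rfl⟩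
  obtain ⟨B, hB⟩ : ∃ B : Finset (Fin n → Bool), B = univ.filter fun x => ¬ φ.eval x = true := ⟨_, rfl⟩
  have h1 := khr φ A B (fun x hx => by rw [hA, mem_filter] at hx; exact hx.2)
    (fun x hx => by rw [hB, mem_filter] at hx; simpa using hx.2)
  have h2 : (A.card : ℝ) + B.card = 2 ^ n := by
    have := card_split (univ : Finset (Fin n → Bool)) fun x => φ.eval x = true
    rw [← hA, ← hB] at this
    rw [← this, card_univ, Fintype.card_fun, Fintype.card_bool, Fintype.card_fin]
    push_cast
    rfl
  have h3 : (TS (fun x => φ.eval x) : ℝ) = 2 * eb A B := by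
    rw [TS_eb, hA, hB]
    push_cast
    rfl
  have h4 : (TS (fun x => φ.eval x) : ℝ) ^ 2 ≤ (Real.sqrt φ.size * 2 ^ n) ^ 2 := by
    rw [h3, mul_pow, mul_pow, Real.sq_sqrt (Nat.cast_nonneg _), ← h2]
    have h5 : (4 : ℝ) * (A.card * B.card) ≤ ((A.card : ℝ) + B.card) ^ 2 := by
      nlinarith [sq_nonneg ((A.card : ℝ) - B.card)]
    have h6 : (φ.size : ℝ) * (4 * (A.card * B.card)) ≤ φ.size * ((A.card : ℝ) + B.card) ^ 2 :=
      mul_le_mul_of_nonneg_left h5 (Nat.cast_nonneg _)
    nlinarith
  exact le_of_sq_le_sq h4 (by positivity)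

end Pool.Agent.V11201.PT
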