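import Pool.Agent.V11201.PT.Neg

set_option autoImplicit false

/-!
Regular graphs given by lists of edges: inner edges and boundary.
-/

namespace Pool.Agent.V11201.PT

open Finset
open scoped Classical

variable {V : Type} [Fintype V] {M : ℕ}

/-- the degree of `v` in the graph with the edges `e j` -/
noncomputable def deg (e : Fin M → V × V) (v : V) : ℕ :=
  (univ.filter fun j => (e j).1 = v).card + (univ.filter fun j => (e j).2 = v).card

/-- the number of edges with exactly one end in `S` -/
noncomputable def bd (e : Fin M → V × V) (S : Finset V) : ℕ :=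
  (univ.filter fun j => ((e j).1 ∈ S ∧ (e j).2 ∉ S) ∨ ((e j).1 ∉ S ∧ (e j).2 ∈ S)).card

/-- the edge lies in `S` -/
def Inn (S : Finset V) (p : V × V) : Prop := p.1 ∈ S ∧ p.2 ∈ S

theorem sum_fib (f : Fin M → V) (S : Finset V) :
    ∑ v ∈ S, (univ.filter fun j => f j = v).card = (univ.filter fun j => f j ∈ S).card := by
  rw [card_eq_sum_card_fiberwise (f := f) (t := S) (s := univ.filter fun j => f j ∈ S)
    (fun j hj => by
      simp only [coe_filter, mem_univ, true_and, Set.mem_ofPred_eq] at hj
      exact hj)]
  refine sum_congr rfl fun v hv => ?_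
  congr 1
  ext j
  simp only [mem_filter, mem_univ, true_and]
  constructor
  · intro h; exact ⟨h ▸ hv, h⟩
  · exact fun h => h.2

theorem inner_bd (e : Fin M → V × V) (S : Finset V) :
    ∑ v ∈ S, deg e v = 2 * (univ.filter fun j => Inn S (e j)).card + bd e S := by
  unfold deg
  rw [sum_add_distrib, sum_fib (fun j => (e j).1), sum_fib (fun j => (e j).2)]
  unfold bd Inn
  simp_rw [card_filter]
  rw [← sum_add_distrib, mul_sum, ← sum_add_distrib]
  refine sum_congr rfl fun j _ => ?_
  by_cases h1 : (e j).1 ∈ S <;> by_cases h2 : (e j).2 ∈ S <;> simp [h1, h2]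

theorem two_M {e : Fin M → V × V} {d : ℕ} (he : ∀ v, deg e v = d) : 2 * M = d * Fintype.card V := by
  have h := inner_bd e univ
  have h1 : (univ.filter fun j => Inn (univ : Finset V) (e j)).card = M := by
    rw [filter_true_of_mem fun j _ => ⟨mem_univ _, mem_univ _⟩, card_univ, Fintype.card_fin]
  have h2 : bd e univ = 0 := by
    unfold bd
    rw [card_eq_zero, filter_eq_empty_iff]
    simp
  rw [h1, h2, sum_congr rfl fun v _ => he v, sum_const, card_univ, smul_eq_mul, add_zero] at h
  rw [← h, mul_comm]

theorem inner_eq {e : Fin M → V × V} {d m : ℕ} (he : ∀ v, deg e v = d) {S : Finset V} (hS : S.card = m) :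
    ((univ.filter fun j => Inn S (e j)).card : ℝ) = ((d : ℝ) * m - bd e S) / 2 := by
  have h := inner_bd e S
  rw [sum_congr rfl fun v _ => he v, sum_const, smul_eq_mul, hS] at h
  have h' : ((m * d : ℕ) : ℝ) = ((2 * (univ.filter fun j => Inn S (e j)).card + bd e S : ℕ) : ℝ) := by
    rw [h]
  push_cast at h'
  linarith

theorem dm_eq [Nonempty V] {e : Fin M → V × V} {d m : ℕ} (he : ∀ v, deg e v = d) :
    (d : ℝ) * m / 2 = m / Fintype.card V * M := by
  have h := two_M he
  have h' : 2 * (M : ℝ) = d * Fintype.card V := by exact_mod_cast h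
  have hV : (0 : ℝ) < Fintype.card V := by exact_mod_cast Fintype.card_pos
  field_simp
  linear_combination -(m : ℝ) * h'

end Pool.Agent.V11201.PT
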